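import Pool.Agent.Helper22_LLG.Stmt

/-!
# LLG: SPR, all percolations together
-/

set_option autoImplicit false

namespace Pool.Agent.LLG.H94

open SimpleGraph Pool.Agent.LAG

section av

variable {Ω : Type} [Fintype Ω]

theorem av_mono {f g : Ω → ℝ} (h : ∀ ω, f ω ≤ g ω) : av f ≤ av g := by
  unfold av
  exact div_le_div_of_nonneg_right (Finset.sum_le_sum fun ω _ => h ω) (Nat.cast_nonneg _)

/-- Jensen's inequality for the exponential function. -/
theorem exp_le_av [Nonempty Ω] (f : Ω → ℝ) (c : ℝ) (h : c ≤ av f) :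
    Real.exp c ≤ av fun ω => Real.exp (f ω) := by
  have hpos : (0 : ℝ) < Fintype.card Ω := by exact_mod_cast Fintype.card_pos
  have h1 : ∀ ω, Real.exp c * (1 + (f ω - c)) ≤ Real.exp (f ω) := by
    intro ω
    have h2 := Real.add_one_le_exp (f ω - c)
    have h3 : Real.exp (f ω) = Real.exp c * Real.exp (f ω - c) := by
      rw [← Real.exp_add]
      congr 1
      ring
    rw [h3]
    exact mul_le_mul_of_nonneg_left (by linarith) (Real.exp_pos c).le
  refine le_trans ?_ (av_mono h1)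
  unfold av
  rw [le_div_iff₀ hpos, ← Finset.mul_sum, Finset.sum_add_distrib, Finset.sum_sub_distrib,
    Finset.sum_const, Finset.sum_const, Finset.card_univ, nsmul_eq_mul, nsmul_eq_mul, mul_one]
  have h4 : c * (Fintype.card Ω : ℝ) ≤ ∑ ω, f ω := by
    unfold av at h
    rwa [le_div_iff₀ hpos] at h
  refine mul_le_mul_of_nonneg_left ?_ (Real.exp_pos c).le
  linarith

/-- The average over a product. -/
theorem av_cons {Y : Type} [Fintype Y] (n : ℕ) (f : (Fin (n + 1) → Y) → ℝ) :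
    av f = av fun y : Y => av fun z : Fin n → Y => f (Fin.cons y z) := by
  unfold av
  have h1 : ∑ ω : Fin (n + 1) → Y, f ω = ∑ y : Y, ∑ z : Fin n → Y, f (Fin.cons y z) := by
    rw [← (Fin.consEquiv (fun _ : Fin (n + 1) => Y)).sum_comp, Fintype.sum_prod_type]
    rfl
  rw [h1, ← Finset.sum_div, div_div]
  congr 1
  rw [Fintype.card_fun, Fintype.card_fun, Fintype.card_fin, Fintype.card_fin, pow_succ]
  push_cast
  rfl

end av

theorem prc_zero {X : Type} {k : ℕ} (Γ : SimpleGraph X) (ω : Fin 1 → Sym2 X → Fin k) :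
    prc Γ 0 ω = opn Γ (ω 0) 1 := by
  ext a b
  constructor
  · rintro ⟨h1, i, hi⟩
    have h0 : i = 0 := Fin.fin_one_eq_zero i
    subst h0
    rw [if_pos (by simp)] at hi
    exact ⟨h1, hi⟩
  · rintro ⟨h1, h2⟩
    refine ⟨h1, 0, ?_⟩
    rw [if_pos (by simp)]
    exact h2

theorem prc_cons {X : Type} {k : ℕ} (Γ : SimpleGraph X) (s : ℕ) (y : Sym2 X → Fin k)
    (z : Fin (s + 1) → Sym2 X → Fin k) :
    prc Γ (s + 1) (Fin.cons y z) = opn Γ y 3 ⊔ prc Γ s z := by
  ext a b
  rw [SimpleGraph.sup_adj]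
  constructor
  · rintro ⟨h1, i, hi⟩
    refine Fin.cases (motive := fun i => (((Fin.cons y z : Fin (s + 2) → Sym2 X → Fin k) i
      s(a, b)).val < if i.val = s + 1 then 1 else 3) → (opn Γ y 3).Adj a b ∨ (prc Γ s z).Adj a b)
      ?_ ?_ i hi
    · intro h
      rw [Fin.cons_zero, Fin.val_zero, if_neg (by omega)] at h
      exact Or.inl ⟨h1, h⟩
    · intro j h
      rw [Fin.cons_succ, Fin.val_succ] at h
      refine Or.inr ⟨h1, j, ?_⟩
      by_cases hj : j.val = s
      · rw [if_pos hj]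
        rwa [if_pos (by omega)] at h
      · rw [if_neg hj]
        rwa [if_neg (by omega)] at h
  · rintro (⟨h1, h2⟩ | ⟨h1, j, h2⟩)
    · refine ⟨h1, 0, ?_⟩
      rw [Fin.cons_zero, Fin.val_zero, if_neg (by omega)]
      exact h2
    · refine ⟨h1, j.succ, ?_⟩
      rw [Fin.cons_succ, Fin.val_succ]
      by_cases hj : j.val = s
      · rw [if_pos hj] at h2
        rwa [if_pos (by omega)]
      · rw [if_neg hj] at h2
        rwa [if_neg (by omega)]

theorem ind_eq {A B : Type} (S : Set A) (T : Set B) (a : A) (b : B) (h : a ∈ S ↔ b ∈ T) :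
    S.indicator (fun _ => (1 : ℝ)) a = T.indicator (fun _ => (1 : ℝ)) b := by
  by_cases hb : b ∈ T
  · rw [Set.indicator_of_mem hb, Set.indicator_of_mem (h.2 hb)]
  · rw [Set.indicator_of_notMem hb, Set.indicator_of_notMem (fun h' => hb (h.1 h'))]

theorem av_const {Ω : Type} [Fintype Ω] [Nonempty Ω] (c : ℝ) : av (fun _ : Ω => c) = c := by
  unfold av
  rw [Finset.sum_const, nsmul_eq_mul, Finset.card_univ, mul_comm, mul_div_assoc, div_self, mul_one]
  exact_mod_cast Fintype.card_ne_zero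

/-- The induction over the percolations. -/
theorem main (hS1 : Spr1Stmt) (hS0 : Spr0Stmt) (X : Type) [Fintype X] [DecidableEq X]
    (Γ : SimpleGraph X) (k m : ℕ) (hk : 16 ≤ k) (hm : 1 ≤ m)
    (hd : ∀ v, (Γ.neighborSet v).ncard ≤ k) (hsp : Sparse Γ k m) (hc : Γ.Connected) (s : ℕ) :
    ∀ O : SimpleGraph X, O ≤ Γ →
    Real.exp (-(Real.log k * ((5 / 8 : ℝ) ^ s * (cc O : ℝ) + 4 / 3 * (1 - (5 / 8 : ℝ) ^ s) *
      ((Fintype.card X : ℝ) / m + 4 * (mis Γ k : ℝ) / k)))) ≤
    av (fun ω : Fin (s + 1) → Sym2 X → Fin k =>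
      Set.indicator {ω | (O ⊔ prc Γ s ω).Connected} (fun _ => (1 : ℝ)) ω) := by
  have hk1 : (1 : ℝ) ≤ k := by exact_mod_cast (by omega : 1 ≤ k)
  have hlog : 0 ≤ Real.log k := Real.log_nonneg hk1
  have : NeZero k := ⟨by omega⟩
  have : Nonempty (Sym2 X → Fin k) := ⟨fun _ => 0⟩
  have : Nonempty (Fin 0 → Sym2 X → Fin k) := ⟨fun i => i.elim0⟩
  induction s with
  | zero =>
    intro O hO
    rw [av_cons]
    have h1 := hS0 X Γ O k (by omega) hc hO
    have h2 : ∀ (y : Sym2 X → Fin k) (z : Fin 0 → Sym2 X → Fin k),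
        Set.indicator {ω : Fin 1 → Sym2 X → Fin k | (O ⊔ prc Γ 0 ω).Connected}
          (fun _ => (1 : ℝ)) (Fin.cons y z) =
          Set.indicator {ω | (O ⊔ opn Γ ω 1).Connected} (fun _ => (1 : ℝ)) y := by
      intro y z
      refine ind_eq _ _ _ _ ?_
      rw [Set.mem_ofPred_eq, Set.mem_ofPred_eq, prc_zero, Fin.cons_zero]
    simp only [Nat.reduceAdd, h2, av_const]
    refine le_trans (le_of_eq ?_) h1
    rw [pow_zero, sub_self, mul_zero, zero_mul, add_zero, one_mul, Real.exp_neg, mul_comm,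
      ← Real.log_pow, Real.exp_log (by positivity)]
  | succ s ih =>
    intro O hO
    rw [av_cons]
    have h2 : ∀ (y : Sym2 X → Fin k) (z : Fin (s + 1) → Sym2 X → Fin k),
        Set.indicator {ω : Fin (s + 2) → Sym2 X → Fin k | (O ⊔ prc Γ (s + 1) ω).Connected}
          (fun _ => (1 : ℝ)) (Fin.cons y z) =
          Set.indicator {ω | ((O ⊔ opn Γ y 3) ⊔ prc Γ s ω).Connected} (fun _ => (1 : ℝ)) z := by
      intro y z
      refine ind_eq _ _ _ _ ?_
      rw [Set.mem_ofPred_eq, Set.mem_ofPred_eq, prc_cons, sup_assoc]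
    have h3 : ∀ y : Sym2 X → Fin k,
        Real.exp (-(Real.log k * ((5 / 8 : ℝ) ^ s * (cc (O ⊔ opn Γ y 3) : ℝ) +
          4 / 3 * (1 - (5 / 8 : ℝ) ^ s) *
          ((Fintype.card X : ℝ) / m + 4 * (mis Γ k : ℝ) / k)))) ≤
        av fun z : Fin (s + 1) → Sym2 X → Fin k =>
          Set.indicator {ω : Fin (s + 2) → Sym2 X → Fin k | (O ⊔ prc Γ (s + 1) ω).Connected}
          (fun _ => (1 : ℝ)) (Fin.cons y z) := by
      intro y
      refine (ih (O ⊔ opn Γ y 3) (sup_le hO fun a b h => h.1)).trans (le_of_eq ?_)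
      exact congrArg av (funext fun z => (h2 y z).symm)
    refine le_trans ?_ (av_mono h3)
    refine exp_le_av _ _ ?_
    have h4 := hS1 X Γ O k m hk hm hd hsp hO
    have hpos : (0 : ℝ) < Fintype.card (Sym2 X → Fin k) := by exact_mod_cast Fintype.card_pos
    have h5 : av (fun y : Sym2 X → Fin k => -(Real.log k * ((5 / 8 : ℝ) ^ s *
        (cc (O ⊔ opn Γ y 3) : ℝ) + 4 / 3 * (1 - (5 / 8 : ℝ) ^ s) *
          ((Fintype.card X : ℝ) / m + 4 * (mis Γ k : ℝ) / k)))) =
        -(Real.log k * ((5 / 8 : ℝ) ^ s *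
          av (fun y : Sym2 X → Fin k => (cc (O ⊔ opn Γ y 3) : ℝ)) +
          4 / 3 * (1 - (5 / 8 : ℝ) ^ s) *
          ((Fintype.card X : ℝ) / m + 4 * (mis Γ k : ℝ) / k))) := by
      unfold av
      rw [Finset.sum_neg_distrib, ← Finset.mul_sum, Finset.sum_add_distrib, ← Finset.mul_sum,
        Finset.sum_const, Finset.card_univ, nsmul_eq_mul]
      field_simp
    rw [h5]
    refine neg_le_neg (mul_le_mul_of_nonneg_left ?_ hlog)
    have h6 : (0 : ℝ) ≤ (5 / 8 : ℝ) ^ s := by positivity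
    have h7 := mul_le_mul_of_nonneg_left h4 h6
    rw [pow_succ]
    linarith

theorem spr (hS1 : Spr1Stmt) (hS0 : Spr0Stmt) : SprStmt := by
  intro X _ _ Γ k s m hk hm hd hsp hc
  have h := main hS1 hS0 X Γ k m hk hm hd hsp hc s ⊥ bot_le
  have hk1 : (1 : ℝ) ≤ k := by exact_mod_cast (by omega : 1 ≤ k)
  have hlog : 0 ≤ Real.log k := Real.log_nonneg hk1
  have hcc : cc (⊥ : SimpleGraph X) = Fintype.card X := by
    rw [cc, ← Nat.card_eq_fintype_card]
    refine (Nat.card_congr (Equiv.ofBijective (SimpleGraph.connectedComponentMk ⊥)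
      ⟨fun a b hab => ?_, fun C => ?_⟩)).symm
    · rw [SimpleGraph.ConnectedComponent.eq] at hab
      exact SimpleGraph.reachable_bot.1 hab
    · induction C using SimpleGraph.ConnectedComponent.ind with
      | _ x => exact ⟨x, rfl⟩
  rw [hcc] at h
  refine le_trans ?_ (h.trans (le_of_eq ?_))
  · refine Real.exp_le_exp.2 (neg_le_neg (mul_le_mul_of_nonneg_left ?_ hlog))
    have hy : (0 : ℝ) ≤ (Fintype.card X : ℝ) / m + 4 * (mis Γ k : ℝ) / k := by positivity
    have h6 : (0 : ℝ) ≤ (5 / 8 : ℝ) ^ s := by positivity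
    have h7 := mul_nonneg h6 hy
    linarith
  · refine congrArg av (funext fun ω => ind_eq _ _ _ _ ?_)
    rw [Set.mem_ofPred_eq, Set.mem_ofPred_eq, bot_sup_eq]

end Pool.Agent.LLG.H94
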