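import Pool.Agent.Helper22_LLG.Stmt

/-!
# LLG: SPR0, the last percolation
-/

set_option autoImplicit false

namespace Pool.Agent.LLG.H94

open SimpleGraph Pool.Agent.LAG

/-- Adding an edge between two components lowers the number of components. -/
theorem cc_lt {X : Type} [Fintype X] (O : SimpleGraph X) (a b : X) (hab : ¬ O.Reachable a b) :
    cc (O ⊔ SimpleGraph.edge a b) < cc O := by
  classical
  have hne : a ≠ b := fun h => hab (h ▸ SimpleGraph.Reachable.refl a)
  have hle : O ≤ O ⊔ SimpleGraph.edge a b := le_sup_left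
  let f : O.ConnectedComponent → (O ⊔ SimpleGraph.edge a b).ConnectedComponent :=
    SimpleGraph.ConnectedComponent.map (SimpleGraph.Hom.ofLE hle)
  have hf : ∀ x, f (O.connectedComponentMk x) = (O ⊔ SimpleGraph.edge a b).connectedComponentMk x :=
    fun x => rfl
  have hsur : Function.Surjective f := by
    intro C
    induction C using SimpleGraph.ConnectedComponent.ind with
    | _ x => exact ⟨O.connectedComponentMk x, hf x⟩
  have hni : ¬ Function.Injective f := by
    intro hi
    have h1 : f (O.connectedComponentMk a) = f (O.connectedComponentMk b) := by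
      rw [hf, hf, SimpleGraph.ConnectedComponent.eq]
      refine SimpleGraph.Adj.reachable ?_
      rw [SimpleGraph.sup_adj, SimpleGraph.edge_adj]
      exact Or.inr ⟨Or.inl ⟨rfl, rfl⟩, hne⟩
    have h2 := hi h1
    rw [SimpleGraph.ConnectedComponent.eq] at h2
    exact hab h2
  have : Fintype O.ConnectedComponent := Fintype.ofFinite _
  have : Fintype (O ⊔ SimpleGraph.edge a b).ConnectedComponent := Fintype.ofFinite _
  rw [cc, cc, Nat.card_eq_fintype_card, Nat.card_eq_fintype_card]
  exact Fintype.card_lt_of_surjective_not_injective f hsur hni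

/-- A set of edges which connects the components. -/
theorem exists_edges {X : Type} [Fintype X] [DecidableEq X] (Γ : SimpleGraph X)
    (hΓ : Γ.Connected) : ∀ (n : ℕ) (O : SimpleGraph X), O ≤ Γ → cc O ≤ n →
      ∃ S : Finset (Sym2 X), S.card ≤ n ∧ (∀ e ∈ S, e ∈ Γ.edgeSet) ∧
        (O ⊔ SimpleGraph.fromEdgeSet (S : Set (Sym2 X))).Connected := by
  intro n
  induction n with
  | zero =>
    intro O _ h0
    have := hΓ.nonempty
    have : Nonempty O.ConnectedComponent := ⟨O.connectedComponentMk (Classical.arbitrary X)⟩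
    have h1 : 0 < cc O := Nat.card_pos
    omega
  | succ n ih =>
    intro O hO hn
    by_cases hc : O.Connected
    · refine ⟨∅, Nat.zero_le _, fun e he => absurd he (Finset.notMem_empty e), ?_⟩
      exact hc.mono le_sup_left
    · have := hΓ.nonempty
      have hp : ¬ O.Preconnected := fun h => hc ⟨h⟩
      have hex : ∃ a b, Γ.Adj a b ∧ ¬ O.Reachable a b := by
        by_contra hcon
        push Not at hcon
        refine hp fun u v => ?_
        obtain ⟨w⟩ := hΓ.preconnected u v
        induction w with
        | nil => exact SimpleGraph.Reachable.refl _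
        | cons h _ ih2 => exact (hcon _ _ h).trans ih2
      obtain ⟨a, b, hab, hnr⟩ := hex
      have hlt := cc_lt O a b hnr
      have hO' : O ⊔ SimpleGraph.edge a b ≤ Γ := by
        refine sup_le hO ?_
        intro x y hxy
        rw [SimpleGraph.edge_adj] at hxy
        rcases hxy.1 with ⟨h1, h2⟩ | ⟨h1, h2⟩
        · rw [h1, h2]; exact hab
        · rw [h1, h2]; exact hab.symm
      obtain ⟨S, hS, hSe, hSc⟩ := ih (O ⊔ SimpleGraph.edge a b) hO' (by omega)
      refine ⟨insert s(a, b) S, (Finset.card_insert_le _ _).trans (by omega), ?_, ?_⟩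
      · intro e he
        rcases Finset.mem_insert.1 he with rfl | he
        · exact hab
        · exact hSe e he
      · refine hSc.mono ?_
        refine sup_le (sup_le le_sup_left ?_) ?_
        · intro x y hxy
          rw [SimpleGraph.edge_adj] at hxy
          refine Or.inr ?_
          rw [SimpleGraph.fromEdgeSet_adj]
          refine ⟨?_, hxy.2⟩
          rw [Finset.mem_coe, Finset.mem_insert]
          left
          rcases hxy.1 with ⟨h1, h2⟩ | ⟨h1, h2⟩
          · rw [h1, h2]
          · rw [h1, h2, Sym2.eq_swap]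
        · intro x y hxy
          refine Or.inr ?_
          rw [SimpleGraph.fromEdgeSet_adj] at hxy ⊢
          exact ⟨by rw [Finset.coe_insert]; exact Or.inr hxy.1, hxy.2⟩

theorem spr0 : Spr0Stmt := by
  intro X _ _ Γ O k hk hΓ hO
  classical
  obtain ⟨S, hS, hSe, hSc⟩ := exists_edges Γ hΓ (cc O) O hO le_rfl
  have hk0 : 0 < k := by omega
  let z : Fin k := ⟨0, hk0⟩
  let T : Finset (Sym2 X → Fin k) := Fintype.piFinset (fun e => if e ∈ S then {z} else Finset.univ)
  have hT : ∀ ω ∈ T, (O ⊔ opn Γ ω 1).Connected := by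
    intro ω hω
    refine hSc.mono ?_
    refine sup_le le_sup_left ?_
    intro x y hxy
    rw [SimpleGraph.fromEdgeSet_adj] at hxy
    refine Or.inr ⟨?_, ?_⟩
    · exact hSe _ hxy.1
    · have h1 := Fintype.mem_piFinset.1 hω s(x, y)
      rw [if_pos (by exact_mod_cast hxy.1), Finset.mem_singleton] at h1
      rw [h1]
      exact Nat.zero_lt_one
  have hcard : T.card * k ^ S.card = k ^ Fintype.card (Sym2 X) := by
    rw [Fintype.card_piFinset]
    have h1 : ∀ e : Sym2 X, (if e ∈ S then ({z} : Finset (Fin k)) else Finset.univ).card =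
        if e ∈ S then 1 else k := by
      intro e
      split_ifs
      · exact Finset.card_singleton z
      · rw [Finset.card_univ, Fintype.card_fin]
    rw [Finset.prod_congr rfl fun e _ => h1 e, Finset.prod_ite, Finset.prod_const_one, one_mul,
      Finset.prod_const, ← pow_add]
    congr 1
    have h2 : Finset.univ.filter (fun e : Sym2 X => e ∉ S) = Sᶜ := by
      ext e; simp
    rw [h2, Finset.card_compl]
    have := Finset.card_le_univ S
    omega
  have hNpos : (0 : ℝ) < Fintype.card (Sym2 X → Fin k) := by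
    have : Nonempty (Sym2 X → Fin k) := ⟨fun _ => z⟩
    exact_mod_cast Fintype.card_pos
  have hN : (Fintype.card (Sym2 X → Fin k) : ℝ) = (k : ℝ) ^ Fintype.card (Sym2 X) := by
    rw [Fintype.card_fun, Fintype.card_fin]
    push_cast
    rfl
  unfold av
  rw [le_div_iff₀ hNpos]
  have hsum : (T.card : ℝ) ≤ ∑ ω : Sym2 X → Fin k,
      Set.indicator {ω | (O ⊔ opn Γ ω 1).Connected} (fun _ => (1 : ℝ)) ω := by
    have h1 : (T.card : ℝ) = ∑ ω ∈ T,
        Set.indicator {ω | (O ⊔ opn Γ ω 1).Connected} (fun _ => (1 : ℝ)) ω := by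
      have h2 : ∀ ω ∈ T, Set.indicator {ω | (O ⊔ opn Γ ω 1).Connected} (fun _ => (1 : ℝ)) ω = 1 :=
        fun ω hω => Set.indicator_of_mem (show ω ∈ {ω | (O ⊔ opn Γ ω 1).Connected} from hT ω hω) _
      rw [Finset.sum_congr rfl h2, Finset.sum_const, nsmul_eq_mul, mul_one]
    rw [h1]
    refine Finset.sum_le_univ_sum_of_nonneg fun ω => ?_
    exact Set.indicator_nonneg (fun _ _ => zero_le_one) ω
  refine le_trans ?_ hsum
  have hkr : (1 : ℝ) ≤ k := by exact_mod_cast hk0
  have hkp : (0 : ℝ) < (k : ℝ) ^ (cc O) := by positivity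
  rw [inv_mul_le_iff₀ hkp, hN]
  have h3 : (k : ℝ) ^ Fintype.card (Sym2 X) = (T.card : ℝ) * (k : ℝ) ^ S.card := by
    exact_mod_cast hcard.symm
  rw [h3, mul_comm]
  exact mul_le_mul_of_nonneg_right (pow_le_pow_right₀ hkr hS) (Nat.cast_nonneg _)

end Pool.Agent.LLG.H94
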